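import Pool.Agent.helper54.TS.Spec

/-!
# Project ts (MP_2b41e9_nt), row MCH: the invariant sets
-/

set_option autoImplicit false

open Polynomial Finset

noncomputable section

namespace Pool.Agent.TS

open Pool.Agent.PSA (IsSalem Indep Fac)

theorem MCH_fin {K : Type} [Field K] {ι : K →+* ℝ} {β : K} {σ : K →+* ℝ} {k : ℕ} {φ : Fin k → K →+* ℂ}
    {w : Fin k → Circle} (hSF : SF ι β σ φ w) (hnn : ∀ (x : K) (j : Fin k), ‖φ j x‖ ≤ nn φ x)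
    (v : K) (N H : ℕ) (M n1 Sg : ℝ) (hN : 0 < N) (hv : ι v < 2) (hn1 : 0 ≤ n1) (hSg : 0 ≤ Sg) (hM : 0 ≤ M) :
    {s : K × ℕ | Adm ι σ φ v N H M n1 Sg s}.Finite := by
  have hNR : (0 : ℝ) < N := by exact_mod_cast hN
  have hNK : (N : K) ≠ 0 := by
    intro h0
    have h1 : ι (N : K) = 0 := by rw [h0, map_zero]
    rw [map_natCast] at h1
    exact hNR.ne' h1
  have hT := hSF.fin (N * (2 + Sg + M))
  have hP := hT.prod (Set.finite_Iic H)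
  have hinj : Function.Injective (fun s : K × ℕ => ((N : K) * s.1, s.2)) := by
    rintro ⟨a, m⟩ ⟨b, n⟩ h
    have h1 : (N : K) * a = (N : K) * b := congrArg Prod.fst h
    have h2 : m = n := congrArg Prod.snd h
    rw [mul_left_cancel₀ hNK h1, h2]
  refine (hP.preimage hinj.injOn).subset ?_
  rintro s ⟨h1, h2, h3, h4, h5, h6⟩
  refine ⟨⟨h4, ?_, ?_, fun j => ?_⟩, h3⟩
  · show |ι ((N : K) * s.1)| ≤ _
    rw [map_mul, map_natCast, abs_mul, abs_of_pos hNR, abs_of_nonneg h1]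
    exact mul_le_mul_of_nonneg_left (by linarith) hNR.le
  · show |σ ((N : K) * s.1)| ≤ _
    rw [map_mul, map_natCast, abs_mul, abs_of_pos hNR]
    exact mul_le_mul_of_nonneg_left (by linarith) hNR.le
  · show ‖φ j ((N : K) * s.1)‖ ≤ _
    rw [map_mul, map_natCast, norm_mul, Complex.norm_natCast]
    have h7 := hnn s.1 j
    have h8 : (0 : ℝ) ≤ s.2 * n1 := mul_nonneg (Nat.cast_nonneg _) hn1
    exact mul_le_mul_of_nonneg_left (by linarith) hNR.le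

/-- MCH. The invariant sets. -/
theorem MCH (hCON : CON_stmt) (hNNR : NNR_stmt) (hPLA : PLA_stmt) (hINV : INV_stmt) (hSTA : STA_stmt)
    (hLIO : LIO_stmt) (hGRO : GRO_stmt) : MCH_stmt := by
  intro K _ ι β σ k φ w hSF F dg S δ hBlk
  obtain ⟨τ, h, dl, N, H, C, n1, k0, Sg, hτ, hh, hdl, hδ, hC, hfav⟩ := hCON K ι β σ k φ w hSF F dg S δ hBlk
  refine ⟨τ, h, dl, hτ, hh, fun x => (hdl x).1, hδ, ?_⟩
  obtain ⟨n0, -, -, -, -, nj, -, -⟩ := hNNR K k φ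
  obtain ⟨v, hv⟩ : ∃ v : K, v = 1 + β⁻¹ ^ τ := ⟨_, rfl⟩
  rw [← hv] at hC ⊢
  have hC0 : 0 ≤ C := (n0 (dg 0)).trans (hC.ne (dg 0) (hBlk.mem 0 le_rfl zero_le_one))
  have hk0 := hC.kp
  obtain ⟨M0, hM0⟩ : ∃ M0 : ℝ, M0 = k / k0 + k + 1 + k0 + Real.sqrt k := ⟨_, rfl⟩
  have hM00 : 0 ≤ M0 := by
    rw [hM0]
    have h1 : (0 : ℝ) ≤ k / k0 := div_nonneg (Nat.cast_nonneg _) hk0.le
    have h2 : (0 : ℝ) ≤ k := Nat.cast_nonneg _
    have h3 := Real.sqrt_nonneg (k : ℝ)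
    linarith
  have hβ0 : 0 < ι β := lt_trans one_pos hSF.gt
  have hz0 : 0 < (ι β)⁻¹ := inv_pos.2 hβ0
  have hz1 : (ι β)⁻¹ < 1 := inv_lt_one_of_one_lt₀ hSF.gt
  obtain ⟨J₀, hJ₀⟩ := hGRO (ι β)⁻¹ ((N : ℝ) ^ (2 * k + 2) * (|σ v| + (Sg + (ι β) ^ H))) (nn φ v + M0) C (2 * k)
    hz0 hz1 (add_nonneg (n0 v) hM00) hC0
  refine ⟨J₀, fun J hJ => ?_⟩
  obtain ⟨M, hM⟩ : ∃ M : ℝ, M = M0 + J * C := ⟨_, rfl⟩
  have hJC : (0 : ℝ) ≤ J * C := mul_nonneg (Nat.cast_nonneg _) hC0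
  have hMM : 0 ≤ M := by rw [hM]; linarith
  have hMk : k / k0 + k + 1 + k0 ≤ M := by
    rw [hM, hM0]
    have h3 := Real.sqrt_nonneg (k : ℝ)
    linarith
  have hplan : ∀ s : K × ℕ, Adm ι σ φ v N H M n1 Sg s →
      Adm ι σ φ v N H M n1 (Sg + (ι β) ^ H) (plan ι β v dl s) ∧
      (1 ≤ (plan ι β v dl s).2 ∨ ι (plan ι β v dl s).1 < ι v * (ι β)⁻¹) :=
    hPLA K ι β σ k φ w hSF S v N H C n1 k0 Sg hC dl (fun x => (hdl x).2) hfav M hMk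
  refine ⟨{s | Adm ι σ φ v N H M n1 Sg s}, ?_, ?_, ?_, ?_, ?_⟩
  · exact MCH_fin hSF (fun x j => nj x j) v N H M n1 Sg hC.n0 hC.v2 hC.np (by linarith [hC.s1]) hMM
  · obtain ⟨t, ht⟩ := hSTA K ι β σ k φ w hSF F dg S δ hBlk v N H C n1 k0 Sg hC
    obtain ⟨t1, t2, t3, t4, t5, t6⟩ := ht J
    refine ⟨t J, t1, t3, ?_, Nat.zero_le _, t4, t5, ?_⟩
    · exact lt_of_le_of_lt t2 hC.v1
    · show nn φ (t J) + ((0 : ℕ) : ℝ) * n1 ≤ M
      rw [Nat.cast_zero, zero_mul, add_zero, hM, hM0]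
      have h1 : (0 : ℝ) ≤ k / k0 := div_nonneg (Nat.cast_nonneg _) hk0.le
      have h2 : (0 : ℝ) ≤ k := Nat.cast_nonneg _
      linarith
  · intro s hs
    obtain ⟨h1, h2⟩ := hplan s hs
    exact hINV K ι β σ k φ w hSF F dg S δ hBlk v N H C n1 k0 Sg hC M (plan ι β v dl s) h1 h2
  · intro s hs
    exact (hplan s hs).1.1
  · intro s hs
    obtain ⟨h1, -⟩ := hplan s hs
    have h2 := hLIO K ι β σ k φ w hSF v N H M n1 (Sg + (ι β) ^ H) hC.n0 hC.vi hC.np (plan ι β v dl s) h1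
    have h3 := hJ₀ J hJ
    have h4 : nn φ v + M0 + C * J = nn φ v + M := by rw [hM]; ring
    rw [h4] at h3
    obtain ⟨G, hG⟩ : ∃ G : ℝ, G = (N : ℝ) ^ (2 * k + 2) * (|σ v| + (Sg + (ι β) ^ H)) *
        (nn φ v + M) ^ (2 * k) := ⟨_, rfl⟩
    rw [← hG] at h2 h3
    have h5 : 0 < ι v - ι (plan ι β v dl s).1 := sub_pos.2 h1.2.1
    have h6 : 0 < G := by
      by_contra hcon
      have h7 : (ι v - ι (plan ι β v dl s).1) * G ≤ 0 :=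
        mul_nonpos_of_nonneg_of_nonpos h5.le (not_lt.1 hcon)
      linarith
    have h7 : 4 * (ι β)⁻¹ ^ J < ι v - ι (plan ι β v dl s).1 :=
      lt_of_mul_lt_mul_right (lt_of_lt_of_le h3 h2) h6.le
    have h8 : (0 : ℝ) < (ι β)⁻¹ ^ J := pow_pos hz0 J
    have h9 := hC.v2
    nlinarith

end Pool.Agent.TS
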